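import Pool.Agent.H6.Fo.MainF

set_option autoImplicit false

open MeasureTheory

namespace Pool.Agent.Results.MP_ac23f1_an.FocusingArcs

/-- Ivrii's conjecture for straight arcs and focusing arcs of complete strictly convex analytic curves: in every
billiard table, the closed orbits (of any period) all of whose reflections take place on boundary arcs that are
straight, or contained in a curve with real-analytic support function `h : ℝ → ℝ` and positive radius of curvature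
`h + h''` (every closed real-analytic curve with positive curvature, of any rotation index; logarithmic spirals)
and such that the table lies locally on the inner side of the arc, have measure zero. In particular (`J` = all
arcs) the conjecture holds for all tables bounded by such arcs. -/
theorem result :
    ∀ (m : ℕ) (Y : Set (ℝ × ℝ)) (γ : Fin m → ℝ → ℝ × ℝ),
      IsCompact Y →
      closure (interior Y) = Y →
      (∀ i, ContDiff ℝ ((⊤ : ℕ∞) : WithTop ℕ∞) (γ i)) →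
      (∀ i, ∀ s ∈ Set.Icc (0 : ℝ) 1, deriv (γ i) s ≠ 0) →
      (∀ i, Set.InjOn (γ i) (Set.Ioo (0 : ℝ) 1)) →
      (∀ i j, γ i 0 ∉ γ j '' Set.Ioo (0 : ℝ) 1 ∧ γ i 1 ∉ γ j '' Set.Ioo (0 : ℝ) 1) →
      (∀ i j, i ≠ j → Disjoint (γ i '' Set.Ioo (0 : ℝ) 1) (γ j '' Set.Ioo (0 : ℝ) 1)) →
      frontier Y = ⋃ i, γ i '' Set.Icc (0 : ℝ) 1 →
      ∀ J : Set (Fin m),
      (∀ j ∈ J,
        -- the arc is straight, or
        (∃ a b c : ℝ, (a, b) ≠ (0, 0) ∧
          ∀ s ∈ Set.Icc (0 : ℝ) 1, a * (γ j s).1 + b * (γ j s).2 = c) ∨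
        -- it lies on the curve with support function `h`, and the table is locally in the inner half plane
        (∃ h : ℝ → ℝ, (∀ ψ, AnalyticAt ℝ h ψ) ∧ (∀ ψ, 0 < h ψ + deriv (deriv h) ψ) ∧
          ∀ s ∈ Set.Ioo (0 : ℝ) 1, ∃ ψ : ℝ,
            γ j s = (h ψ * Real.cos ψ - deriv h ψ * Real.sin ψ,
              h ψ * Real.sin ψ + deriv h ψ * Real.cos ψ) ∧
            ∃ ε : ℝ, 0 < ε ∧ ∀ y ∈ Y, dist y (γ j s) < ε →
              y.1 * Real.cos ψ + y.2 * Real.sin ψ ≤ h ψ)) →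
      ∀ i, volume {q : ℝ × ℝ | q.1 ∈ Set.Ioo (0 : ℝ) 1 ∧
        ∃ n : ℕ, 0 < n ∧ ∃ P V : ℕ → ℝ × ℝ,
          P 0 = γ i q.1 ∧ V 0 = (Real.cos q.2, Real.sin q.2) ∧
          P n = P 0 ∧ V n = V 0 ∧
          ∀ k < n,
            (∃ t : ℝ, 0 < t ∧ P (k + 1) = P k + t • V k ∧
              ∀ τ ∈ Set.Ioo (0 : ℝ) t, P k + τ • V k ∈ interior Y) ∧
            (∃ j ∈ J, ∃ s ∈ Set.Ioo (0 : ℝ) 1, P (k + 1) = γ j s ∧
              (V k).1 * (-(deriv (γ j) s).2) + (V k).2 * (deriv (γ j) s).1 ≠ 0 ∧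
              V (k + 1) = V k -
                (2 * ((V k).1 * (-(deriv (γ j) s).2) + (V k).2 * (deriv (γ j) s).1) /
                  ((deriv (γ j) s).1 ^ 2 + (deriv (γ j) s).2 ^ 2)) •
                  (-(deriv (γ j) s).2, (deriv (γ j) s).1)) ∧
            (∃ ε : ℝ, 0 < ε ∧
              ∀ τ ∈ Set.Ioo (0 : ℝ) ε, P (k + 1) + τ • V (k + 1) ∈ interior Y)} = 0 := by
  intro m Y γ hYc _ hγ hreg hinj _ hdisj hfr J hJ i
  have hY : ∀ i, ∀ s ∈ Set.Icc (0 : ℝ) 1, γ i s ∈ Y := by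
    intro i s hs
    have h1 : γ i s ∈ frontier Y := by
      rw [hfr]
      exact Set.mem_iUnion.mpr ⟨i, s, hs, rfl⟩
    exact hYc.isClosed.frontier_subset h1
  refine Pool.Agent.H6.Fo.mainF m Y γ hγ hreg hinj hdisj hY J ?_ i
  intro j hj
  rcases hJ j hj with h | ⟨h, h1, h2, h3⟩
  · exact Or.inl h
  · exact Or.inr ⟨⟨h, h1, h2⟩, h3⟩

end Pool.Agent.Results.MP_ac23f1_an.FocusingArcs
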