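import Pool.Agent.H6.Tw.MainG

set_option autoImplicit false

open MeasureTheory

namespace Pool.Agent.Results.MP_ac23f1_an.TwoFreeAlg

/-- Ivrii's conjecture with at most two free mirrors, algebraic version. Let `J` be a set of boundary arcs contained in
real algebraic curves `f = 0` whose top-degree form does not vanish at `(1, i)` (segments, arcs of parabolas, hyperbolas
and ellipses other than circles, arcs of generic real algebraic curves of every degree); the other boundary arcs are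
arbitrary smooth arcs. Then the closed orbits, of any period, at most two of whose reflection points are outside the open
arcs of `J`, have measure zero. -/
theorem result :
    ∀ (m : ℕ) (Y : Set (ℝ × ℝ)) (γ : Fin m → ℝ → ℝ × ℝ),
      IsCompact Y →
      closure (interior Y) = Y →
      (∀ i, ContDiff ℝ ((⊤ : ℕ∞) : WithTop ℕ∞) (γ i)) →
      (∀ i, ∀ s ∈ Set.Icc (0 : ℝ) 1, deriv (γ i) s ≠ 0) →
      (∀ i, Set.InjOn (γ i) (Set.Ioo (0 : ℝ) 1)) →
      (∀ i j, γ i 0 ∉ γ j '' Set.Ioo (0 : ℝ) 1 ∧ γ i 1 ∉ γ j '' Set.Ioo (0 : ℝ) 1) →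
      (∀ i j, i ≠ j → Disjoint (γ i '' Set.Ioo (0 : ℝ) 1) (γ j '' Set.Ioo (0 : ℝ) 1)) →
      frontier Y = ⋃ i, γ i '' Set.Icc (0 : ℝ) 1 →
      ∀ J : Set (Fin m),
      -- every arc of `J` lies on a real algebraic curve `f = 0` with `f_top(1, i) ≠ 0`: the one-variable
      -- polynomial `f(X, i X)` has the full degree of `f`
      (∀ j ∈ J, ∃ f : MvPolynomial (Fin 2) ℝ, f ≠ 0 ∧
        (MvPolynomial.aeval ![(Polynomial.X : Polynomial ℂ),
          Polynomial.C Complex.I * Polynomial.X] f).natDegree = f.totalDegree ∧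
        ∀ s ∈ Set.Icc (0 : ℝ) 1, MvPolynomial.eval ![(γ j s).1, (γ j s).2] f = 0) →
      ∀ i, volume {q : ℝ × ℝ | q.1 ∈ Set.Ioo (0 : ℝ) 1 ∧
        ∃ n : ℕ, 0 < n ∧ ∃ P V : ℕ → ℝ × ℝ,
          P 0 = γ i q.1 ∧ V 0 = (Real.cos q.2, Real.sin q.2) ∧
          P n = P 0 ∧ V n = V 0 ∧
          (∀ k < n,
            (∃ t : ℝ, 0 < t ∧ P (k + 1) = P k + t • V k ∧
              ∀ τ ∈ Set.Ioo (0 : ℝ) t, P k + τ • V k ∈ interior Y) ∧
            (∃ j : Fin m, ∃ s ∈ Set.Ioo (0 : ℝ) 1, P (k + 1) = γ j s ∧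
              (V k).1 * (-(deriv (γ j) s).2) + (V k).2 * (deriv (γ j) s).1 ≠ 0 ∧
              V (k + 1) = V k -
                (2 * ((V k).1 * (-(deriv (γ j) s).2) + (V k).2 * (deriv (γ j) s).1) /
                  ((deriv (γ j) s).1 ^ 2 + (deriv (γ j) s).2 ^ 2)) •
                  (-(deriv (γ j) s).2, (deriv (γ j) s).1)) ∧
            (∃ ε : ℝ, 0 < ε ∧
              ∀ τ ∈ Set.Ioo (0 : ℝ) ε, P (k + 1) + τ • V (k + 1) ∈ interior Y)) ∧
          {k : ℕ | k < n ∧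
            ¬ ∃ j ∈ J, ∃ s ∈ Set.Ioo (0 : ℝ) 1, P (k + 1) = γ j s}.ncard ≤ 2} = 0 := by
  intro m Y γ _ _ hγ hreg _ _ hdisj _ J hJ i
  exact Pool.Agent.H6.Tw.mainG m Y γ hγ hreg hdisj J hJ i

end Pool.Agent.Results.MP_ac23f1_an.TwoFreeAlg
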