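import Pool.Agent.H6.Tw.MainC

set_option autoImplicit false

open MeasureTheory

namespace Pool.Agent.Results.MP_ac23f1_an.TwoFreeCirc

/-- Ivrii's conjecture with at most two free mirrors, circular version. Let `J` be a set of straight or circular boundary
arcs; the other boundary arcs are arbitrary smooth arcs. Then the closed orbits, of any period, at most two of whose
reflection points are outside the open arcs of `J`, have measure zero. -/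
theorem result :
    ∀ (m : ℕ) (Y : Set (ℝ × ℝ)) (γ : Fin m → ℝ → ℝ × ℝ),
      IsCompact Y →
      closure (interior Y) = Y →
      (∀ i, ContDiff ℝ ((⊤ : ℕ∞) : WithTop ℕ∞) (γ i)) →
      (∀ i, ∀ s ∈ Set.Icc (0 : ℝ) 1, deriv (γ i) s ≠ 0) →
      (∀ i, Set.InjOn (γ i) (Set.Ioo (0 : ℝ) 1)) →
      (∀ i j, γ i 0 ∉ γ j '' Set.Ioo (0 : ℝ) 1 ∧ γ i 1 ∉ γ j '' Set.Ioo (0 : ℝ) 1) →
      (∀ i j, i ≠ j → Disjoint (γ i '' Set.Ioo (0 : ℝ) 1) (γ j '' Set.Ioo (0 : ℝ) 1)) →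
      frontier Y = ⋃ i, γ i '' Set.Icc (0 : ℝ) 1 →
      ∀ J : Set (Fin m),
      (∀ j ∈ J,
        (∃ a b c : ℝ, (a, b) ≠ (0, 0) ∧
          ∀ s ∈ Set.Icc (0 : ℝ) 1, a * (γ j s).1 + b * (γ j s).2 = c) ∨
        (∃ x y r : ℝ, 0 < r ∧
          ∀ s ∈ Set.Icc (0 : ℝ) 1, ((γ j s).1 - x) ^ 2 + ((γ j s).2 - y) ^ 2 = r ^ 2)) →
      ∀ i, volume {q : ℝ × ℝ | q.1 ∈ Set.Ioo (0 : ℝ) 1 ∧
        ∃ n : ℕ, 0 < n ∧ ∃ P V : ℕ → ℝ × ℝ,
          P 0 = γ i q.1 ∧ V 0 = (Real.cos q.2, Real.sin q.2) ∧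
          P n = P 0 ∧ V n = V 0 ∧
          (∀ k < n,
            (∃ t : ℝ, 0 < t ∧ P (k + 1) = P k + t • V k ∧
              ∀ τ ∈ Set.Ioo (0 : ℝ) t, P k + τ • V k ∈ interior Y) ∧
            (∃ j : Fin m, ∃ s ∈ Set.Ioo (0 : ℝ) 1, P (k + 1) = γ j s ∧
              (V k).1 * (-(deriv (γ j) s).2) + (V k).2 * (deriv (γ j) s).1 ≠ 0 ∧
              V (k + 1) = V k -
                (2 * ((V k).1 * (-(deriv (γ j) s).2) + (V k).2 * (deriv (γ j) s).1) /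
                  ((deriv (γ j) s).1 ^ 2 + (deriv (γ j) s).2 ^ 2)) •
                  (-(deriv (γ j) s).2, (deriv (γ j) s).1)) ∧
            (∃ ε : ℝ, 0 < ε ∧
              ∀ τ ∈ Set.Ioo (0 : ℝ) ε, P (k + 1) + τ • V (k + 1) ∈ interior Y)) ∧
          {k : ℕ | k < n ∧
            ¬ ∃ j ∈ J, ∃ s ∈ Set.Ioo (0 : ℝ) 1, P (k + 1) = γ j s}.ncard ≤ 2} = 0 := by
  intro m Y γ _ _ hγ hreg _ _ hdisj _ J hJ i
  exact Pool.Agent.H6.Tw.mainC m Y γ hγ hreg hdisj J hJ i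

end Pool.Agent.Results.MP_ac23f1_an.TwoFreeCirc
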